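import Pool.Agent.Results.MP_67c3d0_lc.OneNDNormalForm

set_option autoImplicit false

namespace Pool.Agent.Run7.h704.PG

open Pool.Agent.Results.MP_67c3d0_lc.OneNDNormalForm
open scoped Classical

theorem coh1 {Ψ : Type} [Finite Ψ] (f : Ψ → Ψ) (e : Ψ → ℚ) :
    ∃ D α : Ψ → ℚ, ∀ v, e v = D v - D (f v) + α v ∧ α (f v) = α v := by
  obtain ⟨a, b, hab, h⟩ : ∃ a b : ℕ, a < b ∧ f^[a] = f^[b] := by
    obtain ⟨a, b, hne, h⟩ := Finite.exists_ne_map_eq_of_infinite (fun m : ℕ => f^[m])
    rcases lt_or_gt_of_ne hne with h1 | h1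
    · exact ⟨a, b, h1, h⟩
    · exact ⟨b, a, h1, h.symm⟩
  obtain ⟨P, hP0, rfl⟩ : ∃ P : ℕ, 0 < P ∧ b = a + P := ⟨b - a, by omega, by omega⟩
  have hP : (P : ℚ) ≠ 0 := by positivity
  let S : ℕ → Ψ → ℚ := fun m v => ∑ j ∈ Finset.range m, e (f^[j] v)
  have hS : ∀ m v, S m v - S m (f v) = e v - e (f^[m] v) := by
    intro m v
    have h1 : S m (f v) = ∑ j ∈ Finset.range m, e (f^[j+1] v) := by
      refine Finset.sum_congr rfl fun j _ => ?_
      rw [Function.iterate_succ_apply]
    have h2 := Finset.sum_range_succ (fun j => e (f^[j] v)) m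
    have h3 := Finset.sum_range_succ' (fun j => e (f^[j] v)) m
    rw [h2] at h3
    simp only [Function.iterate_zero, id_eq] at h3
    have h4 : S m v = ∑ j ∈ Finset.range m, e (f^[j] v) := rfl
    rw [h1, h4]
    linarith
  have hA : ∀ v, ∑ j ∈ Finset.range P, e (f^[a + j] (f v)) =
      ∑ j ∈ Finset.range P, e (f^[a + j] v) := by
    intro v
    have h1 : ∀ j, f^[a + j] (f v) = f^[a + (j + 1)] v := by
      intro j
      rw [← Function.iterate_succ_apply]
      rfl
    simp only [h1]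
    have h2 := Finset.sum_range_succ (fun j => e (f^[a + j] v)) P
    have h3 := Finset.sum_range_succ' (fun j => e (f^[a + j] v)) P
    rw [h2] at h3
    have h4 : f^[a + P] v = f^[a] v := by rw [← h]
    rw [h4] at h3
    simp only [add_zero] at h3
    linarith
  refine ⟨fun v => (P : ℚ)⁻¹ * ∑ j ∈ Finset.range P, S (a + j) v,
    fun v => (P : ℚ)⁻¹ * ∑ j ∈ Finset.range P, e (f^[a + j] v), fun v => ⟨?_, ?_⟩⟩
  · have h1 : ∑ j ∈ Finset.range P, S (a + j) v - ∑ j ∈ Finset.range P, S (a + j) (f v) =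
        P * e v - ∑ j ∈ Finset.range P, e (f^[a + j] v) := by
      rw [← Finset.sum_sub_distrib]
      simp only [hS]
      rw [Finset.sum_sub_distrib]
      simp
    have h2 : (P : ℚ)⁻¹ * ∑ j ∈ Finset.range P, S (a + j) v -
        (P : ℚ)⁻¹ * ∑ j ∈ Finset.range P, S (a + j) (f v) =
        e v - (P : ℚ)⁻¹ * ∑ j ∈ Finset.range P, e (f^[a + j] v) := by
      rw [← mul_sub, h1]
      field_simp
    linarith
  · simp only [hA]

theorem coh {Ψ ι : Type} [Finite Ψ] (f : Ψ → Ψ) (e : Ψ → ι → ℚ) :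
    ∃ D α : Ψ → ι → ℚ, ∀ v, e v = D v - D (f v) + α v ∧ α (f v) = α v := by
  choose D α h using fun i => coh1 f (fun v => e v i)
  refine ⟨fun v i => D i v, fun v i => α i v, fun v => ⟨?_, ?_⟩⟩
  · funext i
    exact (h i v).1
  · funext i
    exact (h i v).2

theorem exists_seq {X : Type} {R : X → X → Prop} {a b : X} (h : Relation.ReflTransGen R a b) :
    ∃ (t : ℕ) (s : ℕ → X), s 0 = a ∧ s t = b ∧ ∀ j < t, R (s j) (s (j + 1)) := by
  induction h with
  | refl => exact ⟨0, fun _ => a, rfl, rfl, fun j hj => absurd hj (by omega)⟩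
  | @tail b c _ hbc ih =>
    obtain ⟨t, s, h0, ht, hs⟩ := ih
    refine ⟨t + 1, fun j => if j ≤ t then s j else c, ?_, ?_, ?_⟩
    · simp [h0]
    · simp
    · intro j hj
      rcases Nat.lt_or_ge j t with h1 | h1
      · simp only [if_pos (by omega : j ≤ t), if_pos (by omega : j + 1 ≤ t)]
        exact hs j h1
      · have h2 : j = t := by omega
        subst h2
        simp only [le_refl, if_true, if_neg (by omega : ¬ j + 1 ≤ j)]
        rw [ht]
        exact hbc

section

variable {T : Type} (G : PG T)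

/-- numbers of occurrences -/
noncomputable def cnt {X : Type} (l : List X) (s : X) : ℚ :=
  (l.map (fun x => if x = s then (1 : ℚ) else 0)).sum

theorem cnt_nil {X : Type} (s : X) : cnt [] s = 0 := by simp [cnt]

theorem cnt_cons {X : Type} (x : X) (l : List X) (s : X) :
    cnt (x :: l) s = (if x = s then 1 else 0) + cnt l s := by simp [cnt]

theorem cnt_append {X : Type} (l l' : List X) : cnt (l ++ l') = cnt l + cnt l' := by
  funext s
  simp [cnt]

theorem cnt_nonneg {X : Type} (l : List X) (s : X) : 0 ≤ cnt l s := by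
  induction l with
  | nil => rw [cnt_nil]
  | cons x l ih =>
    rw [cnt_cons]
    split_ifs <;> linarith

theorem cnt_pos {X : Type} {l : List X} {s : X} (h : s ∈ l) : 1 ≤ cnt l s := by
  induction l with
  | nil => simp at h
  | cons x l ih =>
    rw [cnt_cons]
    rcases List.mem_cons.1 h with h1 | h1
    · rw [if_pos h1.symm]
      have := cnt_nonneg l s
      linarith
    · have := ih h1
      split_ifs <;> linarith

theorem cnt_zero {X : Type} {l : List X} {s : X} (h : s ∉ l) : cnt l s = 0 := by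
  induction l with
  | nil => rw [cnt_nil]
  | cons x l ih =>
    rw [List.mem_cons, not_or] at h
    rw [cnt_cons, if_neg (fun h1 => h.1 h1.symm), ih h.2, add_zero]

theorem cnt_map_inr {X Y : Type} (l : List Y) (a : Y) :
    cnt (l.map Sum.inr : List (X ⊕ Y)) (Sum.inr a) = cnt l a := by
  induction l with
  | nil => rw [List.map_nil, cnt_nil, cnt_nil]
  | cons x l ih =>
    rw [List.map_cons, cnt_cons, cnt_cons, ih]
    congr 1
    by_cases h : x = a
    · rw [if_pos (by rw [h]), if_pos h]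
    · rw [if_neg (fun h1 => h (Sum.inr.inj h1)), if_neg h]

/-- the effect of a rule -/
noncomputable def eff (r : G.Ψ) : G.N ⊕ T → ℚ := cnt (G.rhs r) - cnt [Sum.inl (G.lhs r)]

/-- the label has at least two successors -/
def nd (r : G.Ψ) : Prop := 2 ≤ (G.succ r).card

/-- a derivation, seen through the numbers of occurrences -/
structure Dv (w : List T) where
  t : ℕ
  r : ℕ → G.Ψ
  x : ℕ → G.N ⊕ T → ℚ
  x0 : x 0 = cnt [Sum.inl G.start]
  xs : ∀ j < t, x (j + 1) = x j + eff G (r j)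
  hs : ∀ j < t, r (j + 1) ∈ G.succ (r j)
  hl : ∀ j < t, 1 ≤ x j (Sum.inl (G.lhs (r j)))
  xN : ∀ A, x t (Sum.inl A) = 0
  xT : ∀ a, x t (Sum.inr a) = cnt w a

theorem exists_dv {w : List T} (h : w ∈ G.lang) : Nonempty (Dv G w) := by
  obtain ⟨q, p, h⟩ := h
  obtain ⟨t, s, h0, ht, hs⟩ := exists_seq h
  refine ⟨⟨t, fun j => (s j).2, fun j => cnt (s j).1, ?_, ?_, ?_, ?_, ?_, ?_⟩⟩
  · rw [h0]
  · intro j hj
    obtain ⟨_, u1, u2, h1, h2⟩ := hs j hj
    rw [h1, h2, eff]
    have h3 : u1 ++ Sum.inl (G.lhs (s j).2) :: u2 = u1 ++ [Sum.inl (G.lhs (s j).2)] ++ u2 := by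
      simp
    rw [h3]
    simp only [cnt_append]
    ring
  · intro j hj
    exact (hs j hj).1
  · intro j hj
    obtain ⟨_, u1, u2, h1, h2⟩ := hs j hj
    refine cnt_pos ?_
    rw [h1]
    simp
  · intro A
    change cnt (s t).1 _ = _
    rw [ht]
    exact cnt_zero (by simp)
  · intro a
    change cnt (s t).1 _ = _
    rw [ht]
    exact cnt_map_inr w a

end

end Pool.Agent.Run7.h704.PG
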