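import Pool.Agent.Run7.h704.PG.A

set_option autoImplicit false

namespace Pool.Agent.Run7.h704.PG

open Pool.Agent.Results.MP_67c3d0_lc.OneNDNormalForm
open scoped Classical

section

variable {T : Type} {G : PG T}

/-- the next label, if it is unique -/
noncomputable def nxt (G : PG T) (v : G.Ψ) : G.Ψ :=
  if h : ∃ u, G.succ v = {u} then h.choose else v

theorem det_of {v u : G.Ψ} (h : u ∈ G.succ v) (h2 : ¬ nd G v) : G.succ v = {u} := by
  have h3 : (G.succ v).card = 1 := by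
    have : 0 < (G.succ v).card := Finset.card_pos.2 ⟨u, h⟩
    unfold nd at h2
    omega
  obtain ⟨u', hu⟩ := Finset.card_eq_one.1 h3
  rw [hu] at h ⊢
  rw [Finset.mem_singleton] at h
  rw [h]

theorem nxt_eq {v u : G.Ψ} (h : G.succ v = {u}) : nxt G v = u := by
  have h1 : ∃ u, G.succ v = {u} := ⟨u, h⟩
  unfold nxt
  rw [dif_pos h1]
  exact (Finset.singleton_injective (h.symm.trans h1.choose_spec)).symm

/-- the decomposition of the effects of the labels with one successor -/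
structure Dec (G : PG T) where
  D : G.Ψ → G.N ⊕ T → ℚ
  al : G.Ψ → G.N ⊕ T → ℚ
  h1 : ∀ v u, G.succ v = {u} → eff G v = D v - D u + al v
  h2 : ∀ v u, G.succ v = {u} → al u = al v
  h3 : ∀ v, nd G v → al v = 0

theorem exists_dec (G : PG T) : Nonempty (Dec G) := by
  obtain ⟨D, al, h⟩ := coh (nxt G) (fun v => if ∃ u, G.succ v = {u} then eff G v else 0)
  refine ⟨⟨D, al, ?_, ?_, ?_⟩⟩
  · intro v u hu
    have h1 := (h v).1
    rw [if_pos ⟨u, hu⟩, nxt_eq hu] at h1
    exact h1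
  · intro v u hu
    have h1 := (h v).2
    rw [nxt_eq hu] at h1
    exact h1
  · intro v hv
    have h0 : ¬ ∃ u, G.succ v = {u} := by
      rintro ⟨u, hu⟩
      unfold nd at hv
      rw [hu] at hv
      simp at hv
    have h1 := (h v).1
    have h2 : nxt G v = v := by
      unfold nxt
      rw [dif_neg h0]
    rw [if_neg h0, h2] at h1
    rw [sub_self, zero_add] at h1
    exact h1.symm

/-- the corrected effect of an edge -/
noncomputable def Dh (C : Dec G) (e : G.Ψ × G.Ψ) : G.N ⊕ T → ℚ := eff G e.1 - C.D e.1 + C.D e.2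

variable {w w' : List T}

/-- the corrected effect of the step number `j` -/
noncomputable def gg (C : Dec G) (d : Dv G w) (j : ℕ) : G.N ⊕ T → ℚ :=
  if nd G (d.r j) then Dh C (d.r j, d.r (j + 1)) else C.al (d.r j)

theorem seg (C : Dec G) (d : Dv G w) {a b : ℕ} (hab : a ≤ b) (hb : b ≤ d.t) :
    d.x b = d.x a + C.D (d.r a) - C.D (d.r b) + ∑ j ∈ Finset.Ico a b, gg C d j := by
  induction b, hab using Nat.le_induction with
  | base => simp
  | succ b hab ih =>
    have h := ih (by omega)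
    rw [Finset.sum_Ico_succ_top hab, d.xs b (by omega), h]
    by_cases h2 : nd G (d.r b)
    · have h3 : gg C d b = eff G (d.r b) - C.D (d.r b) + C.D (d.r (b + 1)) := by
        rw [gg, if_pos h2, Dh]
      rw [h3]
      ring
    · have h3 : gg C d b = C.al (d.r b) := by
        rw [gg, if_neg h2]
      rw [h3, C.h1 _ _ (det_of (d.hs b (by omega)) h2)]
      ring

theorem stop (C : Dec G) (d : Dv G w) {a : ℕ} (ha : a < d.t) (hr : d.r a = d.r d.t)
    (hg : ∀ j, a ≤ j → j < d.t → ∀ A, gg C d j (Sum.inl A) = 0) : False := by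
  have h := seg C d ha.le le_rfl
  have h1 := congrFun h (Sum.inl (G.lhs (d.r a)))
  simp only [Pi.add_apply, Pi.sub_apply, Finset.sum_apply] at h1
  have h2 : ∑ j ∈ Finset.Ico a d.t, gg C d j (Sum.inl (G.lhs (d.r a))) = 0 := by
    refine Finset.sum_eq_zero fun j hj => ?_
    rw [Finset.mem_Ico] at hj
    exact hg j hj.1 hj.2 _
  have h3 := d.hl a ha
  have h4 : C.D (d.r a) (Sum.inl (G.lhs (d.r a))) = C.D (d.r d.t) (Sum.inl (G.lhs (d.r a))) := by
    rw [hr]
  have h5 := d.xN (G.lhs (d.r a))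
  rw [h2] at h1
  linarith

/-- the nondeterministic steps -/
noncomputable def J (d : Dv G w) : Finset ℕ := (Finset.range d.t).filter (fun j => nd G (d.r j))

/-- the type of a derivation -/
noncomputable def ty (d : Dv G w) : G.Ψ × G.Ψ × Option (G.Ψ × G.Ψ) :=
  (d.r 0, d.r d.t,
    if h : (J d).Nonempty then some (d.r ((J d).max' h), d.r ((J d).max' h + 1)) else none)

theorem ty_none {d : Dv G w} {p q : G.Ψ} (h : ty d = (p, q, none)) :
    d.r 0 = p ∧ d.r d.t = q ∧ ∀ j < d.t, ¬ nd G (d.r j) := by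
  unfold ty at h
  rw [Prod.mk.injEq, Prod.mk.injEq] at h
  obtain ⟨h1, h2, h3⟩ := h
  refine ⟨h1, h2, ?_⟩
  by_cases h4 : (J d).Nonempty
  · rw [dif_pos h4] at h3
    cases h3
  · intro j hj hn
    exact h4 ⟨j, by rw [J, Finset.mem_filter, Finset.mem_range]; exact ⟨hj, hn⟩⟩

theorem ty_some {d : Dv G w} {p q : G.Ψ} {o : G.Ψ × G.Ψ} (h : ty d = (p, q, some o)) :
    d.r 0 = p ∧ d.r d.t = q ∧ ∃ j0, j0 < d.t ∧ nd G (d.r j0) ∧ (d.r j0, d.r (j0 + 1)) = o ∧
      ∀ j, j0 < j → j < d.t → ¬ nd G (d.r j) := by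
  unfold ty at h
  rw [Prod.mk.injEq, Prod.mk.injEq] at h
  obtain ⟨h1, h2, h3⟩ := h
  refine ⟨h1, h2, ?_⟩
  by_cases h4 : (J d).Nonempty
  · rw [dif_pos h4] at h3
    have h5 := Finset.mem_filter.1 ((J d).max'_mem h4)
    refine ⟨(J d).max' h4, Finset.mem_range.1 h5.1, h5.2, Option.some.inj h3, ?_⟩
    intro j hj1 hj2 hn
    have h6 : j ∈ J d := by rw [J, Finset.mem_filter, Finset.mem_range]; exact ⟨hj2, hn⟩
    have h7 := (J d).le_max' j h6
    omega
  · rw [dif_neg h4] at h3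
    cases h3

theorem none_aux (d : Dv G w) (d' : Dv G w') (h0 : d.r 0 = d'.r 0)
    (hJ : ∀ j < d.t, ¬ nd G (d.r j)) : ∀ j, j ≤ d.t → j ≤ d'.t →
    d.r j = d'.r j ∧ d.x j = d'.x j := by
  intro j
  induction j with
  | zero => intro _ _; exact ⟨h0, by rw [d.x0, d'.x0]⟩
  | succ j ih =>
    intro h1 h2
    obtain ⟨h3, h4⟩ := ih (by omega) (by omega)
    constructor
    · have h5 := det_of (d.hs j (by omega)) (hJ j (by omega))
      have h6 := d'.hs j (by omega)
      rw [← h3, h5, Finset.mem_singleton] at h6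
      exact h6.symm
    · rw [d.xs j (by omega), d'.xs j (by omega), h3, h4]

theorem none_eq (d : Dv G w) (d' : Dv G w') (h0 : d.r 0 = d'.r 0)
    (hJ : ∀ j < d.t, ¬ nd G (d.r j)) (hJ' : ∀ j < d'.t, ¬ nd G (d'.r j)) :
    d.x d.t = d'.x d'.t := by
  rcases lt_trichotomy d.t d'.t with h | h | h
  · exfalso
    obtain ⟨h1, h2⟩ := none_aux d d' h0 hJ d.t le_rfl h.le
    have h3 := d'.hl d.t h
    rw [← h2, d.xN] at h3
    linarith
  · obtain ⟨h1, h2⟩ := none_aux d d' h0 hJ d.t le_rfl h.le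
    rw [h2, h]
  · exfalso
    obtain ⟨h1, h2⟩ := none_aux d' d h0.symm hJ' d'.t le_rfl h.le
    have h3 := d.hl d'.t h
    rw [← h2, d'.xN] at h3
    linarith

/-- the edges at the labels with at least two successors -/
noncomputable def Ed (G : PG T) : Finset (G.Ψ × G.Ψ) :=
  Finset.univ.filter (fun e => nd G e.1 ∧ e.2 ∈ G.succ e.1)

theorem orbit {d : Dv G w} {j0 : ℕ} (hj : ∀ j, j0 < j → j < d.t → ¬ nd G (d.r j)) :
    ∀ i, j0 + 1 + i ≤ d.t → d.r (j0 + 1 + i) = (nxt G)^[i] (d.r (j0 + 1)) := by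
  intro i
  induction i with
  | zero => intro _; rfl
  | succ i ih =>
    intro h
    rw [Function.iterate_succ_apply', ← ih (by omega)]
    have h1 := det_of (d.hs (j0 + 1 + i) (by omega)) (hj (j0 + 1 + i) (by omega) (by omega))
    exact (nxt_eq h1).symm

theorem al_tail (C : Dec G) {d : Dv G w} {j0 : ℕ} (hj : ∀ j, j0 < j → j < d.t → ¬ nd G (d.r j)) :
    ∀ i, j0 + 1 + i ≤ d.t → C.al (d.r (j0 + 1 + i)) = C.al (d.r (j0 + 1)) := by
  intro i
  induction i with
  | zero => intro _; rfl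
  | succ i ih =>
    intro h
    rw [← ih (by omega)]
    have h1 := det_of (d.hs (j0 + 1 + i) (by omega)) (hj (j0 + 1 + i) (by omega) (by omega))
    exact C.h2 _ _ h1

theorem al_head (C : Dec G) {d : Dv G w} {j0 : ℕ} (h0 : j0 < d.t) (hn : nd G (d.r j0)) :
    ∀ i, i ≤ j0 → C.al (d.r (j0 - i)) = 0 := by
  intro i
  induction i with
  | zero => intro _; exact C.h3 _ hn
  | succ i ih =>
    intro h
    by_cases h1 : nd G (d.r (j0 - (i + 1)))
    · exact C.h3 _ h1
    · have h2 := det_of (d.hs (j0 - (i + 1)) (by omega)) h1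
      have h3 := C.h2 _ _ h2
      rw [← h3]
      have h4 : j0 - (i + 1) + 1 = j0 - i := by omega
      rw [h4]
      exact ih (by omega)

end

end Pool.Agent.Run7.h704.PG
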