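import Pool.Agent.Run7.h704.PG.B

set_option autoImplicit false

namespace Pool.Agent.Run7.h704.PG

open Pool.Agent.Results.MP_67c3d0_lc.OneNDNormalForm
open scoped Classical

section

variable {T : Type} {G : PG T}

theorem mem_Ed {u v : G.Ψ} (h : nd G u) (h2 : v ∈ G.succ u) : (u, v) ∈ Ed G := by
  unfold Ed
  rw [Finset.mem_filter]
  exact ⟨Finset.mem_univ _, h, h2⟩

/-- how often an edge is used before the step `m` -/
noncomputable def ce {w : List T} (d : Dv G w) (m : ℕ) (e : G.Ψ × G.Ψ) : ℕ :=
  (((Finset.range m).filter (fun j => nd G (d.r j))).filter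
    (fun j => (d.r j, d.r (j + 1)) = e)).card

theorem form (C : Dec G) {w : List T} (d : Dv G w) {j0 : ℕ} (h0 : j0 < d.t)
    (hn : nd G (d.r j0)) (hj : ∀ j, j0 < j → j < d.t → ¬ nd G (d.r j)) :
    d.x d.t = d.x 0 + C.D (d.r 0) - C.D (d.r d.t) +
      ∑ e ∈ Ed G, (ce d (j0 + 1) e : ℚ) • Dh C e + ((d.t - (j0 + 1) : ℕ) : ℚ) • C.al (d.r d.t) := by
  have hal : C.al (d.r (j0 + 1)) = C.al (d.r d.t) := by
    have := al_tail C hj (d.t - (j0 + 1)) (by omega)
    rw [← this]
    congr 2
    omega
  have h1 := seg C d (a := 0) (b := j0 + 1) (by omega) (by omega)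
  have h2 := seg C d (a := j0 + 1) (b := d.t) (by omega) le_rfl
  have h3 : ∑ j ∈ Finset.Ico (j0 + 1) d.t, gg C d j =
      ((d.t - (j0 + 1) : ℕ) : ℚ) • C.al (d.r d.t) := by
    have h4 : ∀ j ∈ Finset.Ico (j0 + 1) d.t, gg C d j = C.al (d.r d.t) := by
      intro j hj1
      rw [Finset.mem_Ico] at hj1
      rw [gg, if_neg (hj j (by omega) hj1.2), ← hal]
      have := al_tail C hj (j - (j0 + 1)) (by omega)
      rw [← this]
      congr 2
      omega
    rw [Finset.sum_congr rfl h4, Finset.sum_const, Nat.card_Ico, Nat.cast_smul_eq_nsmul]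
  have h5 : ∑ j ∈ Finset.Ico 0 (j0 + 1), gg C d j =
      ∑ e ∈ Ed G, (ce d (j0 + 1) e : ℚ) • Dh C e := by
    rw [← Finset.range_eq_Ico]
    rw [← Finset.sum_filter_add_sum_filter_not (Finset.range (j0 + 1)) (fun j => nd G (d.r j))]
    have h6 : ∑ j ∈ (Finset.range (j0 + 1)).filter (fun j => ¬ nd G (d.r j)), gg C d j = 0 := by
      refine Finset.sum_eq_zero fun j hj1 => ?_
      rw [Finset.mem_filter, Finset.mem_range] at hj1
      rw [gg, if_neg hj1.2]
      have := al_head C h0 hn (j0 - j) (by omega)
      rw [← this]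
      congr 2
      omega
    rw [h6, add_zero]
    have h7 : ∀ j ∈ (Finset.range (j0 + 1)).filter (fun j => nd G (d.r j)),
        gg C d j = Dh C (d.r j, d.r (j + 1)) := by
      intro j hj1
      rw [Finset.mem_filter] at hj1
      rw [gg, if_pos hj1.2]
    rw [Finset.sum_congr rfl h7]
    have h8 : ∀ j ∈ (Finset.range (j0 + 1)).filter (fun j => nd G (d.r j)),
        (d.r j, d.r (j + 1)) ∈ Ed G := by
      intro j hj1
      rw [Finset.mem_filter, Finset.mem_range] at hj1
      exact mem_Ed hj1.2 (d.hs j (by omega))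
    rw [← Finset.sum_fiberwise_of_maps_to h8]
    refine Finset.sum_congr rfl fun e _ => ?_
    rw [ce, Nat.cast_smul_eq_nsmul, ← Finset.sum_const]
    refine Finset.sum_congr rfl fun j hj1 => ?_
    rw [Finset.mem_filter] at hj1
    rw [hj1.2]
  rw [h2, h1, h3, h5]
  ring

theorem rep (C : Dec G) (p q : G.Ψ) (o : G.Ψ × G.Ψ) :
    ∃ (κ : G.N ⊕ T → ℚ) (F : G.Ψ × G.Ψ → G.N ⊕ T → ℚ) (Y0 : ℚ),
      ∀ (w : List T) (d : Dv G w), ty d = (p, q, some o) →
        o ∈ Ed G ∧ ∃ y : G.Ψ × G.Ψ → ℚ, d.x d.t = κ + ∑ e ∈ Ed G, y e • F e ∧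
          ((∀ e ∈ Ed G, ∀ A, F e (Sum.inl A) = 0) → y o = Y0) := by
  by_cases hq : C.al q = 0
  · refine ⟨cnt [Sum.inl G.start] + C.D p - C.D q, Dh C, 1, ?_⟩
    intro w d hd
    obtain ⟨hp, hqq, j0, h0, hn, ho, hj⟩ := ty_some hd
    refine ⟨by rw [← ho]; exact mem_Ed hn (d.hs j0 h0), fun e => (ce d (j0 + 1) e : ℚ), ?_, ?_⟩
    · rw [form C d h0 hn hj, d.x0, hp, hqq, hq, smul_zero, add_zero]
    · intro hF
      have h1 : ce d (j0 + 1) o = 1 := by
        rw [ce, Finset.card_eq_one]
        refine ⟨j0, ?_⟩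
        ext j1
        rw [Finset.mem_filter, Finset.mem_filter, Finset.mem_range, Finset.mem_singleton]
        constructor
        · rintro ⟨⟨h2, h3⟩, h4⟩
          by_contra hne
          have h5 : j1 < j0 := by omega
          have h6 : d.r (j1 + 1) = d.r (j0 + 1) := by
            rw [← ho] at h4
            exact (Prod.mk.inj h4).2
          have h7 : ∀ i, j0 + 1 + i ≤ d.t → d.r (j1 + 1 + i) = d.r (j0 + 1 + i) := by
            intro i
            induction i with
            | zero => intro _; exact h6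
            | succ i ih =>
              intro hi
              have h8 := ih (by omega)
              have h9 := hj (j0 + 1 + i) (by omega) (by omega)
              have h10 := det_of (d.hs (j0 + 1 + i) (by omega)) h9
              have h11 := d.hs (j1 + 1 + i) (by omega)
              rw [h8, h10, Finset.mem_singleton] at h11
              exact h11
          have h8 := h7 (d.t - (j0 + 1)) (by omega)
          refine stop C d (a := j1 + 1 + (d.t - (j0 + 1))) (by omega) ?_ ?_
          · rw [h8]
            congr 1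
            omega
          · intro j hj1 hj2 A
            by_cases h9 : nd G (d.r j)
            · rw [gg, if_pos h9]
              exact hF _ (mem_Ed h9 (d.hs j hj2)) A
            · rw [gg, if_neg h9]
              rcases Nat.lt_or_ge j0 j with h10 | h10
              · have h11 := al_tail C hj (j - (j0 + 1)) (by omega)
                have h12 := al_tail C hj (d.t - (j0 + 1)) (by omega)
                rw [show j0 + 1 + (j - (j0 + 1)) = j by omega] at h11
                rw [show j0 + 1 + (d.t - (j0 + 1)) = d.t by omega] at h12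
                rw [h11, ← h12, hqq, hq]
                rfl
              · have h11 := al_head C h0 hn (j0 - j) (by omega)
                rw [show j0 - (j0 - j) = j by omega] at h11
                rw [h11]
                rfl
        · rintro rfl
          exact ⟨⟨by omega, hn⟩, ho⟩
      change (ce d (j0 + 1) o : ℚ) = 1
      rw [h1]
      simp
  · refine ⟨cnt [Sum.inl G.start] + C.D p - C.D q + Dh C o,
      fun e => if e = o then C.al q else Dh C e,
      ((sInf {i : ℕ | (nxt G)^[i] o.2 = q} : ℕ) : ℚ), ?_⟩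
    intro w d hd
    obtain ⟨hp, hqq, j0, h0, hn, ho, hj⟩ := ty_some hd
    have hoE : o ∈ Ed G := by rw [← ho]; exact mem_Ed hn (d.hs j0 h0)
    have hal : C.al (d.r (j0 + 1)) = C.al (d.r d.t) := by
      have := al_tail C hj (d.t - (j0 + 1)) (by omega)
      rw [← this]
      congr 2
      omega
    have h1 : ce d (j0 + 1) o = 1 := by
      rw [ce, Finset.card_eq_one]
      refine ⟨j0, ?_⟩
      ext j1
      rw [Finset.mem_filter, Finset.mem_filter, Finset.mem_range, Finset.mem_singleton]
      constructor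
      · rintro ⟨⟨h2, h3⟩, h4⟩
        by_contra hne
        have h5 : j1 < j0 := by omega
        have h6 : d.r (j1 + 1) = d.r (j0 + 1) := by
          rw [← ho] at h4
          exact (Prod.mk.inj h4).2
        have h7 := al_head C h0 hn (j0 - (j1 + 1)) (by omega)
        rw [show j0 - (j0 - (j1 + 1)) = j1 + 1 by omega, h6, hal, hqq] at h7
        exact hq h7
      · rintro rfl
        exact ⟨⟨by omega, hn⟩, ho⟩
    refine ⟨hoE, fun e => if e = o then ((d.t - (j0 + 1) : ℕ) : ℚ) else (ce d (j0 + 1) e : ℚ),
      ?_, ?_⟩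
    · rw [form C d h0 hn hj, d.x0, hp, hqq]
      rw [← Finset.add_sum_erase (Ed G) _ hoE, ← Finset.add_sum_erase (Ed G) _ hoE]
      have h2 : ∑ e ∈ (Ed G).erase o, (if e = o then ((d.t - (j0 + 1) : ℕ) : ℚ) else
          (ce d (j0 + 1) e : ℚ)) • (if e = o then C.al q else Dh C e) =
          ∑ e ∈ (Ed G).erase o, (ce d (j0 + 1) e : ℚ) • Dh C e := by
        refine Finset.sum_congr rfl fun e he => ?_
        have := Finset.ne_of_mem_erase he
        rw [if_neg this, if_neg this]
      rw [h2]
      simp only [if_true]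
      rw [h1]
      simp only [Nat.cast_one, one_smul]
      ring
    · intro hF
      have hF1 : ∀ A, C.al q (Sum.inl A) = 0 := by
        intro A
        have := hF o hoE A
        simpa using this
      have h2 : (nxt G)^[d.t - (j0 + 1)] o.2 = q := by
        have h3 := orbit hj (d.t - (j0 + 1)) (by omega)
        rw [show j0 + 1 + (d.t - (j0 + 1)) = d.t by omega, hqq] at h3
        rw [h3, ← ho]
      have hne : {i : ℕ | (nxt G)^[i] o.2 = q}.Nonempty := ⟨_, h2⟩
      have h3 := Nat.sInf_mem hne
      have h4 : sInf {i : ℕ | (nxt G)^[i] o.2 = q} ≤ d.t - (j0 + 1) := Nat.sInf_le h2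
      have h5 : d.t - (j0 + 1) = sInf {i : ℕ | (nxt G)^[i] o.2 = q} := by
        by_contra hne2
        have h6 : sInf {i : ℕ | (nxt G)^[i] o.2 = q} < d.t - (j0 + 1) := by omega
        refine stop C d (a := j0 + 1 + sInf {i : ℕ | (nxt G)^[i] o.2 = q}) (by omega) ?_ ?_
        · rw [orbit hj _ (by omega), hqq]
          have h7 : o.2 = d.r (j0 + 1) := by rw [← ho]
          rw [← h7]
          exact h3
        · intro j hj1 hj2 A
          rw [gg, if_neg (hj j (by omega) hj2)]
          have h11 := al_tail C hj (j - (j0 + 1)) (by omega)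
          rw [show j0 + 1 + (j - (j0 + 1)) = j by omega] at h11
          rw [h11, hal, hqq]
          exact hF1 A
      simp only [if_true]
      rw [h5]

end

end Pool.Agent.Run7.h704.PG
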