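import Pool.Agent.Run7.h704.PG.C

set_option autoImplicit false

namespace Pool.Agent.Run7.h704.PG

open Pool.Agent.Results.MP_67c3d0_lc.OneNDNormalForm
open scoped Classical

theorem proj_ne {n : ℕ} (i : Fin n) : (LinearMap.proj i : (Fin n → ℚ) →ₗ[ℚ] ℚ) ≠ 0 := by
  intro h
  have h1 := LinearMap.congr_fun h (Pi.single i 1)
  simp at h1

/-- the numbers of occurrences of the letters `a i` -/
noncomputable def pr {n : ℕ} {T : Type} (a : Fin n → T) (w : List T) : Fin n → ℚ :=
  fun i => cnt w (a i)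

theorem type_lemma {n : ℕ} {T : Type} (a : Fin n → T) (i0 : Fin n) (G : PG T)
    (hE : (Ed G).card ≤ n) (τ : G.Ψ × G.Ψ × Option (G.Ψ × G.Ψ)) :
    ∃ l : (Fin n → ℚ) →ₗ[ℚ] ℚ, l ≠ 0 ∧ ∀ (w w' : List T) (d : Dv G w) (d' : Dv G w'),
      ty d = τ → ty d' = τ → l (pr a w) = l (pr a w') := by
  obtain ⟨p, q, o⟩ := τ
  rcases o with _ | o
  · refine ⟨LinearMap.proj i0, proj_ne i0, ?_⟩
    intro w w' d d' h h'
    obtain ⟨h1, h2, h3⟩ := ty_none h
    obtain ⟨h1', h2', h3'⟩ := ty_none h'
    have h4 := none_eq d d' (h1.trans h1'.symm) h3 h3'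
    have h5 : pr a w = pr a w' := by
      funext i
      rw [pr, pr, ← d.xT, ← d'.xT, h4]
    rw [h5]
  · obtain ⟨C⟩ := exists_dec G
    obtain ⟨κ, F, Y0, h⟩ := rep C p q o
    by_cases hoE : o ∈ Ed G
    swap
    · exact ⟨LinearMap.proj i0, proj_ne i0, fun w w' d d' hd _ => absurd (h w d hd).1 hoE⟩
    let M : (↥(Ed G) → ℚ) →ₗ[ℚ] (Fin n → ℚ) :=
      ∑ e : ↥(Ed G), (LinearMap.proj e).smulRight (fun i => F e.1 (Sum.inr (a i)))
    let NN : (↥(Ed G) → ℚ) →ₗ[ℚ] (G.N → ℚ) :=
      ∑ e : ↥(Ed G), (LinearMap.proj e).smulRight (fun A => F e.1 (Sum.inl A))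
    have hM : ∀ y i, M y i = ∑ e : ↥(Ed G), y e * F e.1 (Sum.inr (a i)) := by
      intro y i
      simp only [M, LinearMap.sum_apply, LinearMap.smulRight_apply, LinearMap.proj_apply,
        Finset.sum_apply, Pi.smul_apply, smul_eq_mul]
    have hN : ∀ y A, NN y A = ∑ e : ↥(Ed G), y e * F e.1 (Sum.inl A) := by
      intro y A
      simp only [NN, LinearMap.sum_apply, LinearMap.smulRight_apply, LinearMap.proj_apply,
        Finset.sum_apply, Pi.smul_apply, smul_eq_mul]
    obtain ⟨K, hK, hK2⟩ : ∃ K : Submodule ℚ (↥(Ed G) → ℚ), K ≠ ⊤ ∧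
        ∀ (w w' : List T) (d : Dv G w) (d' : Dv G w'), ty d = (p, q, some o) →
          ty d' = (p, q, some o) → ∃ Y ∈ K, M Y = pr a w - pr a w' := by
      have key : ∀ (w w' : List T) (d : Dv G w) (d' : Dv G w'), ty d = (p, q, some o) →
          ty d' = (p, q, some o) → ∃ Y, M Y = pr a w - pr a w' ∧ NN Y = 0 ∧
            ((∀ e ∈ Ed G, ∀ A, F e (Sum.inl A) = 0) → Y ⟨o, hoE⟩ = 0) := by
        intro w w' d d' hd hd'
        obtain ⟨_, y, hy, hy2⟩ := h w d hd
        obtain ⟨_, y', hy', hy2'⟩ := h w' d' hd'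
        have e1 : ∀ s, d.x d.t s - d'.x d'.t s =
            ∑ e : ↥(Ed G), (y e.1 - y' e.1) * F e.1 s := by
          intro s
          rw [hy, hy']
          simp only [Pi.add_apply, Finset.sum_apply, Pi.smul_apply, smul_eq_mul]
          rw [Finset.sum_coe_sort (Ed G) (fun e => (y e - y' e) * F e s)]
          simp only [sub_mul, Finset.sum_sub_distrib]
          ring
        refine ⟨fun e => y e.1 - y' e.1, ?_, ?_, ?_⟩
        · funext i
          rw [hM, Pi.sub_apply, pr, pr, ← d.xT, ← d'.xT, e1]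
        · funext A
          rw [hN, ← e1, d.xN, d'.xN]
          simp
        · intro hF
          change y o - y' o = 0
          rw [hy2 hF, hy2' hF, sub_self]
      by_cases hF : ∀ e ∈ Ed G, ∀ A, F e (Sum.inl A) = 0
      · refine ⟨LinearMap.ker (LinearMap.proj ⟨o, hoE⟩ : (↥(Ed G) → ℚ) →ₗ[ℚ] ℚ), ?_, ?_⟩
        · intro htop
          have h1 : (Pi.single (⟨o, hoE⟩ : ↥(Ed G)) (1 : ℚ)) ∈
              LinearMap.ker (LinearMap.proj ⟨o, hoE⟩ : (↥(Ed G) → ℚ) →ₗ[ℚ] ℚ) := by
            rw [htop]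
            trivial
          rw [LinearMap.mem_ker] at h1
          simp at h1
        · intro w w' d d' hd hd'
          obtain ⟨Y, h1, _, h3⟩ := key w w' d d' hd hd'
          exact ⟨Y, by rw [LinearMap.mem_ker]; exact h3 hF, h1⟩
      · refine ⟨LinearMap.ker NN, ?_, ?_⟩
        · intro htop
          push Not at hF
          obtain ⟨e, he, A, hA⟩ := hF
          have h1 : (Pi.single (⟨e, he⟩ : ↥(Ed G)) (1 : ℚ)) ∈ LinearMap.ker NN := by
            rw [htop]
            trivial
          rw [LinearMap.mem_ker] at h1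
          have h2 := congrFun h1 A
          rw [hN] at h2
          rw [Finset.sum_eq_single (⟨e, he⟩ : ↥(Ed G))] at h2
          · rw [Pi.single_eq_same, one_mul] at h2
            exact hA h2
          · intro b _ hb
            rw [Pi.single_eq_of_ne hb, zero_mul]
          · intro hb
            exact absurd (Finset.mem_univ _) hb
        · intro w w' d d' hd hd'
          obtain ⟨Y, h1, h2, _⟩ := key w w' d d' hd hd'
          exact ⟨Y, by rw [LinearMap.mem_ker]; exact h2, h1⟩
    have h1 : K.map M < ⊤ := by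
      rw [lt_top_iff_ne_top]
      intro htop
      have h2 : Module.finrank ℚ (K.map M) ≤ Module.finrank ℚ K := Submodule.finrank_map_le M K
      have h3 : Module.finrank ℚ K < Module.finrank ℚ (↥(Ed G) → ℚ) :=
        Submodule.finrank_lt hK
      rw [htop, finrank_top] at h2
      rw [Module.finrank_fintype_fun_eq_card] at h2 h3
      rw [Fintype.card_coe] at h3
      rw [Fintype.card_fin] at h2
      omega
    obtain ⟨l, hl, hl2⟩ := Submodule.exists_le_ker_of_lt_top _ h1
    refine ⟨l, hl, ?_⟩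
    intro w w' d d' hd hd'
    obtain ⟨Y, hY, hY2⟩ := hK2 w w' d d' hd hd'
    have h2 : M Y ∈ LinearMap.ker l := hl2 (Submodule.mem_map_of_mem hY)
    rw [LinearMap.mem_ker, hY2, map_sub] at h2
    linarith

theorem exists_word {ι : Type} (s : Finset ι) (f : ι → ℕ) :
    ∃ v : List ι, ∀ i, cnt v i = if i ∈ s then (f i : ℚ) else 0 := by
  have hrep : ∀ (k : ℕ) (a i : ι), cnt (List.replicate k a) i = if a = i then (k : ℚ) else 0 := by
    intro k a i
    induction k with
    | zero => simp [cnt_nil]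
    | succ k ih =>
      rw [List.replicate_succ, cnt_cons, ih]
      split_ifs
      · push_cast
        ring
      · ring
  induction s using Finset.induction_on with
  | empty => exact ⟨[], fun i => by simp [cnt_nil]⟩
  | insert a s ha ih =>
    obtain ⟨v, hv⟩ := ih
    refine ⟨List.replicate (f a) a ++ v, fun i => ?_⟩
    rw [cnt_append, Pi.add_apply, hrep, hv]
    by_cases h : a = i
    · subst h
      rw [if_pos rfl, if_neg ha, if_pos (Finset.mem_insert_self _ _), add_zero]
    · rw [if_neg h, zero_add]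
      by_cases h2 : i ∈ s
      · rw [if_pos h2, if_pos (Finset.mem_insert_of_mem h2)]
      · rw [if_neg h2, if_neg]
        intro h3
        rcases Finset.mem_insert.1 h3 with h4 | h4
        · exact h h4.symm
        · exact h2 h4

theorem cnt_map_inj {X Y : Type} (a : X → Y) (ha : Function.Injective a) (l : List X) (i : X) :
    cnt (l.map a) (a i) = cnt l i := by
  induction l with
  | nil => rw [List.map_nil, cnt_nil, cnt_nil]
  | cons x l ih =>
    rw [List.map_cons, cnt_cons, cnt_cons, ih]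
    congr 1
    by_cases h : x = i
    · rw [if_pos (by rw [h]), if_pos h]
    · rw [if_neg (fun h1 => h (ha h1)), if_neg h]

theorem lower {m : ℕ} {T : Type} (a : Fin (m + 1) → T) (ha : Function.Injective a) (G : PG T)
    (hG : G.lang = {w | ∃ v : List (Fin (m + 1)), w = (v ++ [0]).map a})
    (hE : (Ed G).card ≤ m + 1) : False := by
  have hw : ∀ k : ℕ, ∃ w : List T, w ∈ G.lang ∧
      ∀ i : Fin (m + 1), pr a w i = (k : ℚ) ^ (i.1 + 1) + cnt [0] i := by
    intro k
    obtain ⟨v, hv⟩ := exists_word (Finset.univ : Finset (Fin (m + 1))) (fun i => k ^ (i.1 + 1))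
    refine ⟨(v ++ [0]).map a, ?_, ?_⟩
    · rw [hG]
      exact ⟨v, rfl⟩
    · intro i
      rw [pr, cnt_map_inj a ha, cnt_append, Pi.add_apply, hv, if_pos (Finset.mem_univ _)]
      push_cast
      ring
  choose w hw1 hw2 using hw
  have d : ∀ k, Dv G (w k) := fun k => (exists_dv G (hw1 k)).some
  obtain ⟨τ, hτ⟩ := Finite.exists_infinite_fiber (fun k => ty (d k))
  obtain ⟨l, hl, hl2⟩ := type_lemma a 0 G hE τ
  have hinf : ((fun k => ty (d k)) ⁻¹' {τ}).Infinite := Set.infinite_coe_iff.1 hτ
  obtain ⟨k0, hk0⟩ := hinf.nonempty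
  have hlin : ∀ x : Fin (m + 1) → ℚ, l x = ∑ i, x i * l (Pi.single i 1) := by
    intro x
    have h1 : x = ∑ i, x i • (Pi.single i (1 : ℚ) : Fin (m + 1) → ℚ) := by
      funext j
      rw [Finset.sum_apply, Finset.sum_eq_single j]
      · simp
      · intro b _ hb
        simp [Pi.single_eq_of_ne hb.symm]
      · intro hb
        exact absurd (Finset.mem_univ _) hb
    conv_lhs => rw [h1]
    rw [map_sum]
    simp only [map_smul, smul_eq_mul]
  let P : Polynomial ℚ := ∑ i : Fin (m + 1), Polynomial.C (l (Pi.single i 1)) *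
    Polynomial.X ^ (i.1 + 1)
  have hP : ∀ k : ℕ, P.eval (k : ℚ) = l (pr a (w k)) - l (cnt [0]) := by
    intro k
    rw [← map_sub, hlin]
    simp only [P, Polynomial.eval_finsetSum, Polynomial.eval_mul, Polynomial.eval_C,
      Polynomial.eval_pow, Polynomial.eval_X, Pi.sub_apply, hw2]
    refine Finset.sum_congr rfl fun i _ => ?_
    ring
  have h0 : P - Polynomial.C (P.eval (k0 : ℚ)) = 0 := by
    refine Polynomial.eq_zero_of_infinite_isRoot _ ?_
    refine Set.Infinite.mono ?_ (hinf.image (f := fun k : ℕ => (k : ℚ))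
      (Nat.cast_injective.injOn))
    rintro _ ⟨k, hk, rfl⟩
    change Polynomial.IsRoot _ _
    rw [Polynomial.IsRoot.def, Polynomial.eval_sub, Polynomial.eval_C, hP, hP,
      hl2 (w k) (w k0) (d k) (d k0) hk hk0, sub_self]
  have h1 : ∀ i : Fin (m + 1), l (Pi.single i 1) = 0 := by
    intro i
    have h2 := congrArg (fun Q => Polynomial.coeff Q (i.1 + 1)) h0
    simp only [Polynomial.coeff_sub, Polynomial.coeff_C_succ, sub_zero, Polynomial.coeff_zero] at h2
    rw [← h2]
    simp only [P, Polynomial.finsetSum_coeff, Polynomial.coeff_C_mul_X_pow]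
    rw [Finset.sum_eq_single i]
    · simp
    · intro b _ hb
      rw [if_neg]
      intro h3
      exact hb (Fin.ext (by omega))
    · intro hb
      exact absurd (Finset.mem_univ _) hb
  apply hl
  refine LinearMap.ext fun x => ?_
  rw [hlin x]
  simp [h1]

end Pool.Agent.Run7.h704.PG
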